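import Mathlib

set_option autoImplicit false

/-!
The isomorphism `y² + y = x³ → Y² = X³ + 16`.
-/

namespace Pool.Agent.Y784.E3

open WeierstrassCurve

section

variable {L : Type} [Field L] [DecidableEq L] {W W' : WeierstrassCurve L}

omit [DecidableEq L] in
theorem eqn (h : W.a₁ = 0 ∧ W.a₂ = 0 ∧ W.a₃ = 1 ∧ W.a₄ = 0 ∧ W.a₆ = 0) (x y : L) :
    W.toAffine.Equation x y ↔ y ^ 2 + y = x ^ 3 := by
  obtain ⟨a1, a2, a3, a4, a6⟩ := h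
  rw [Affine.equation_iff]
  show y ^ 2 + W.a₁ * x * y + W.a₃ * y = x ^ 3 + W.a₂ * x ^ 2 + W.a₄ * x + W.a₆ ↔ _
  rw [a1, a2, a3, a4, a6]
  constructor <;> intro h <;> linear_combination h

omit [DecidableEq L] in
theorem eqn' (h : W.a₁ = 0 ∧ W.a₂ = 0 ∧ W.a₃ = 0 ∧ W.a₄ = 0 ∧ W.a₆ = 16) (x y : L) :
    W.toAffine.Equation x y ↔ y ^ 2 = x ^ 3 + 16 := by
  obtain ⟨a1, a2, a3, a4, a6⟩ := h
  rw [Affine.equation_iff]
  show y ^ 2 + W.a₁ * x * y + W.a₃ * y = x ^ 3 + W.a₂ * x ^ 2 + W.a₄ * x + W.a₆ ↔ _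
  rw [a1, a2, a3, a4, a6]
  constructor <;> intro h <;> linear_combination h

omit [DecidableEq L] in
theorem nons (h : W.a₁ = 0 ∧ W.a₂ = 0 ∧ W.a₃ = 1 ∧ W.a₄ = 0 ∧ W.a₆ = 0) (x y : L) :
    W.toAffine.Nonsingular x y ↔ y ^ 2 + y = x ^ 3 ∧ (3 * x ^ 2 ≠ 0 ∨ 2 * y + 1 ≠ 0) := by
  rw [Affine.nonsingular_iff, eqn h]
  obtain ⟨a1, a2, a3, a4, a6⟩ := h
  show _ ∧ (W.a₁ * y ≠ 3 * x ^ 2 + 2 * W.a₂ * x + W.a₄ ∨ y ≠ -y - W.a₁ * x - W.a₃) ↔ _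
  rw [a1, a2, a3, a4]
  refine and_congr Iff.rfl (or_congr (not_congr ?_) (not_congr ?_))
  · constructor <;> intro h <;> linear_combination -h
  · constructor <;> intro h <;> linear_combination h

omit [DecidableEq L] in
theorem nons' (h : W.a₁ = 0 ∧ W.a₂ = 0 ∧ W.a₃ = 0 ∧ W.a₄ = 0 ∧ W.a₆ = 16) (x y : L) :
    W.toAffine.Nonsingular x y ↔ y ^ 2 = x ^ 3 + 16 ∧ (3 * x ^ 2 ≠ 0 ∨ 2 * y ≠ 0) := by
  rw [Affine.nonsingular_iff, eqn' h]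
  obtain ⟨a1, a2, a3, a4, a6⟩ := h
  show _ ∧ (W.a₁ * y ≠ 3 * x ^ 2 + 2 * W.a₂ * x + W.a₄ ∨ y ≠ -y - W.a₁ * x - W.a₃) ↔ _
  rw [a1, a2, a3, a4]
  refine and_congr Iff.rfl (or_congr (not_congr ?_) (not_congr ?_))
  · constructor <;> intro h <;> linear_combination -h
  · constructor <;> intro h <;> linear_combination h

omit [DecidableEq L] in
theorem nons_iff (h2 : (2 : L) ≠ 0)
    (h : W.a₁ = 0 ∧ W.a₂ = 0 ∧ W.a₃ = 1 ∧ W.a₄ = 0 ∧ W.a₆ = 0)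
    (h' : W'.a₁ = 0 ∧ W'.a₂ = 0 ∧ W'.a₃ = 0 ∧ W'.a₄ = 0 ∧ W'.a₆ = 16) (x y : L) :
    W'.toAffine.Nonsingular (4 * x) (8 * y + 4) ↔ W.toAffine.Nonsingular x y := by
  rw [nons h, nons' h']
  have h64 : (64 : L) ≠ 0 := by
    have : (64 : L) = 2 ^ 6 := by norm_num
    rw [this]; exact pow_ne_zero _ h2
  have h16 : (16 : L) ≠ 0 := by
    have : (16 : L) = 2 ^ 4 := by norm_num
    rw [this]; exact pow_ne_zero _ h2
  have h8 : (8 : L) ≠ 0 := by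
    have : (8 : L) = 2 ^ 3 := by norm_num
    rw [this]; exact pow_ne_zero _ h2
  refine and_congr ?_ (or_congr (not_congr ?_) (not_congr ?_))
  · constructor
    · intro e
      apply mul_left_cancel₀ h64
      linear_combination e
    · intro e
      linear_combination 64 * e
  · constructor
    · intro e
      apply mul_left_cancel₀ h16
      linear_combination e
    · intro e
      linear_combination 16 * e
  · constructor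
    · intro e
      apply mul_left_cancel₀ h8
      linear_combination e
    · intro e
      linear_combination 8 * e

omit [DecidableEq L] in
theorem four_ne (h2 : (2 : L) ≠ 0) : (4 : L) ≠ 0 := by
  have : (4 : L) = 2 ^ 2 := by norm_num
  rw [this]; exact pow_ne_zero _ h2

omit [DecidableEq L] in
theorem eight_ne (h2 : (2 : L) ≠ 0) : (8 : L) ≠ 0 := by
  have : (8 : L) = 2 ^ 3 := by norm_num
  rw [this]; exact pow_ne_zero _ h2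

theorem slope_eq (h2 : (2 : L) ≠ 0)
    (h : W.a₁ = 0 ∧ W.a₂ = 0 ∧ W.a₃ = 1 ∧ W.a₄ = 0 ∧ W.a₆ = 0)
    (h' : W'.a₁ = 0 ∧ W'.a₂ = 0 ∧ W'.a₃ = 0 ∧ W'.a₄ = 0 ∧ W'.a₆ = 16) (x₁ x₂ y₁ y₂ : L)
    (hxy : ¬ (x₁ = x₂ ∧ y₁ = W.toAffine.negY x₂ y₂)) :
    W'.toAffine.slope (4 * x₁) (4 * x₂) (8 * y₁ + 4) (8 * y₂ + 4) =
      2 * W.toAffine.slope x₁ x₂ y₁ y₂ := by
  have h4 := four_ne h2
  have h8 := eight_ne h2
  obtain ⟨a1, a2, a3, a4, a6⟩ := h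
  obtain ⟨b1, b2, b3, b4, b6⟩ := h'
  by_cases hx : x₁ = x₂
  · subst hx
    have hy : y₁ ≠ W.toAffine.negY x₁ y₂ := fun e => hxy ⟨rfl, e⟩
    have hy0 : y₁ ≠ -y₂ - 1 := by
      intro e
      apply hy
      show y₁ = -y₂ - W.a₁ * x₁ - W.a₃
      rw [a1, a3, e]; ring
    have hy' : 8 * y₁ + 4 ≠ W'.toAffine.negY (4 * x₁) (8 * y₂ + 4) := by
      intro e
      apply hy0
      have e' : 8 * y₁ + 4 = -(8 * y₂ + 4) - W'.a₁ * (4 * x₁) - W'.a₃ := e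
      rw [b1, b3] at e'
      apply mul_left_cancel₀ h8
      linear_combination e'
    rw [Affine.slope_of_Y_ne rfl hy, Affine.slope_of_Y_ne rfl hy']
    have hy1 : y₁ - W.toAffine.negY x₁ y₁ ≠ 0 → True := fun _ => trivial
    show (3 * (4 * x₁) ^ 2 + 2 * W'.a₂ * (4 * x₁) + W'.a₄ - W'.a₁ * (8 * y₁ + 4)) /
      ((8 * y₁ + 4) - (-(8 * y₁ + 4) - W'.a₁ * (4 * x₁) - W'.a₃)) =
      2 * ((3 * x₁ ^ 2 + 2 * W.a₂ * x₁ + W.a₄ - W.a₁ * y₁) / (y₁ - (-y₁ - W.a₁ * x₁ - W.a₃)))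
    rw [a1, a2, a3, a4, b1, b2, b3, b4]
    have e1 : (8 * y₁ + 4) - (-(8 * y₁ + 4) - 0 * (4 * x₁) - 0) = 8 * (y₁ - (-y₁ - 0 * x₁ - 1)) := by
      ring
    have e2 : 3 * (4 * x₁) ^ 2 + 2 * 0 * (4 * x₁) + 0 - 0 * (8 * y₁ + 4) =
        8 * (2 * (3 * x₁ ^ 2 + 2 * 0 * x₁ + 0 - 0 * y₁)) := by ring
    rw [e1, e2, mul_div_mul_left _ _ h8, mul_div_assoc]
  · have hx' : 4 * x₁ ≠ 4 * x₂ := fun e => hx (mul_left_cancel₀ h4 e)
    rw [Affine.slope_of_X_ne hx, Affine.slope_of_X_ne hx']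
    have e1 : 8 * y₁ + 4 - (8 * y₂ + 4) = 4 * (2 * (y₁ - y₂)) := by ring
    have e2 : 4 * x₁ - 4 * x₂ = 4 * (x₁ - x₂) := by ring
    rw [e1, e2, mul_div_mul_left _ _ h4, mul_div_assoc]

/-- the map on points -/
def phi (h2 : (2 : L) ≠ 0)
    (h : W.a₁ = 0 ∧ W.a₂ = 0 ∧ W.a₃ = 1 ∧ W.a₄ = 0 ∧ W.a₆ = 0)
    (h' : W'.a₁ = 0 ∧ W'.a₂ = 0 ∧ W'.a₃ = 0 ∧ W'.a₄ = 0 ∧ W'.a₆ = 16) :
    W.toAffine.Point → W'.toAffine.Point
  | .zero => .zero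
  | .some x y hn => .some (4 * x) (8 * y + 4) ((nons_iff h2 h h' x y).2 hn)

theorem phi_add (h2 : (2 : L) ≠ 0)
    (h : W.a₁ = 0 ∧ W.a₂ = 0 ∧ W.a₃ = 1 ∧ W.a₄ = 0 ∧ W.a₆ = 0)
    (h' : W'.a₁ = 0 ∧ W'.a₂ = 0 ∧ W'.a₃ = 0 ∧ W'.a₄ = 0 ∧ W'.a₆ = 16)
    (P Q : W.toAffine.Point) : phi h2 h h' (P + Q) = phi h2 h h' P + phi h2 h h' Q := by
  have h4 := four_ne h2
  have h8 := eight_ne h2
  rcases P with _ | ⟨x₁, y₁, n₁⟩
  · show phi h2 h h' (0 + Q) = 0 + phi h2 h h' Q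
    rw [zero_add, zero_add]
  rcases Q with _ | ⟨x₂, y₂, n₂⟩
  · show phi h2 h h' (_ + 0) = _ + 0
    rw [add_zero, add_zero]
  by_cases hxy : x₁ = x₂ ∧ y₁ = W.toAffine.negY x₂ y₂
  · rw [Affine.Point.add_of_Y_eq hxy.1 hxy.2]
    simp only [phi]
    rw [Affine.Point.add_of_Y_eq]
    · rfl
    · rw [hxy.1]
    · have e1 := hxy.2
      have e2 : y₁ = -y₂ - W.a₁ * x₂ - W.a₃ := e1
      show 8 * y₁ + 4 = -(8 * y₂ + 4) - W'.a₁ * (4 * x₂) - W'.a₃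
      rw [h'.1, h'.2.2.1, e2, h.1, h.2.2.1]
      ring
  · rw [Affine.Point.add_some hxy]
    simp only [phi]
    have hxy' : ¬ (4 * x₁ = 4 * x₂ ∧ 8 * y₁ + 4 = W'.toAffine.negY (4 * x₂) (8 * y₂ + 4)) := by
      rintro ⟨e1, e2⟩
      apply hxy
      refine ⟨mul_left_cancel₀ h4 e1, ?_⟩
      have e3 : 8 * y₁ + 4 = -(8 * y₂ + 4) - W'.a₁ * (4 * x₂) - W'.a₃ := e2
      show y₁ = -y₂ - W.a₁ * x₂ - W.a₃
      rw [h'.1, h'.2.2.1] at e3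
      rw [h.1, h.2.2.1]
      apply mul_left_cancel₀ h8
      linear_combination e3
    rw [Affine.Point.add_some hxy']
    have hs := slope_eq h2 h h' x₁ x₂ y₁ y₂ hxy
    rw [Affine.Point.some.injEq]
    obtain ⟨a1, a2, a3, a4, a6⟩ := h
    obtain ⟨b1, b2, b3, b4, b6⟩ := h'
    rw [hs]
    set ℓ := W.toAffine.slope x₁ x₂ y₁ y₂ with hℓ
    have ex : 4 * W.toAffine.addX x₁ x₂ ℓ = W'.toAffine.addX (4 * x₁) (4 * x₂) (2 * ℓ) := by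
      show 4 * (ℓ ^ 2 + W.a₁ * ℓ - W.a₂ - x₁ - x₂) =
        (2 * ℓ) ^ 2 + W'.a₁ * (2 * ℓ) - W'.a₂ - 4 * x₁ - 4 * x₂
      rw [a1, a2, b1, b2]
      ring
    refine ⟨ex, ?_⟩
    show 8 * (-(ℓ * (W.toAffine.addX x₁ x₂ ℓ - x₁) + y₁) - W.a₁ * W.toAffine.addX x₁ x₂ ℓ - W.a₃) + 4 =
      -((2 * ℓ) * (W'.toAffine.addX (4 * x₁) (4 * x₂) (2 * ℓ) - 4 * x₁) + (8 * y₁ + 4)) -
        W'.a₁ * W'.toAffine.addX (4 * x₁) (4 * x₂) (2 * ℓ) - W'.a₃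
    rw [← ex, a1, a3, b1, b3]
    ring

end

theorem iso16 {L : Type} [Field L] [DecidableEq L] (h2 : (2 : L) ≠ 0) {W W' : WeierstrassCurve L}
    (h : W.a₁ = 0 ∧ W.a₂ = 0 ∧ W.a₃ = 1 ∧ W.a₄ = 0 ∧ W.a₆ = 0)
    (h' : W'.a₁ = 0 ∧ W'.a₂ = 0 ∧ W'.a₃ = 0 ∧ W'.a₄ = 0 ∧ W'.a₆ = 16) :
    ∃ Φ : W.toAffine.Point ≃+ W'.toAffine.Point, ∀ x y (hn : W.toAffine.Nonsingular x y),
      ∃ hn' : W'.toAffine.Nonsingular (4 * x) (8 * y + 4),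
        Φ (.some x y hn) = .some (4 * x) (8 * y + 4) hn' := by
  have h4 := four_ne h2
  have h8 := eight_ne h2
  have hbij : Function.Bijective (phi h2 h h') := by
    constructor
    · rintro (_ | ⟨x₁, y₁, n₁⟩) (_ | ⟨x₂, y₂, n₂⟩) he
      · rfl
      · exact absurd he.symm (by simp only [phi]; exact Affine.Point.some_ne_zero _)
      · exact absurd he (by simp only [phi]; exact Affine.Point.some_ne_zero _)
      · simp only [phi, Affine.Point.some.injEq] at he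
        obtain ⟨e1, e2⟩ := he
        have e3 := mul_left_cancel₀ h4 e1
        have e4 : y₁ = y₂ := by
          apply mul_left_cancel₀ h8
          linear_combination e2
        subst e3
        subst e4
        rfl
    · rintro (_ | ⟨X, Y, n⟩)
      · exact ⟨.zero, rfl⟩
      · have e1 : 4 * (X / 4) = X := by field_simp
        have e2 : 8 * ((Y - 4) / 8) + 4 = Y := by field_simp; ring
        have n' : W.toAffine.Nonsingular (X / 4) ((Y - 4) / 8) := by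
          rw [← nons_iff h2 h h', e1, e2]
          exact n
        refine ⟨.some _ _ n', ?_⟩
        simp only [phi, Affine.Point.some.injEq]
        exact ⟨e1, e2⟩
  refine ⟨AddEquiv.ofBijective (AddMonoidHom.mk' (phi h2 h h') (phi_add h2 h h')) hbij,
    fun x y hn => ⟨(nons_iff h2 h h' x y).2 hn, rfl⟩⟩

end Pool.Agent.Y784.E3
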