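import Mathlib
import Pool.Agent.H64R2.DD_MWK
import Pool.Agent.Y784.E3.Iso16

set_option autoImplicit false

/-!
A 2-divisible Mordell-Weil group of `y² + y = x³` is finite of odd order.
-/

namespace Pool.Agent.Y784.E3

open Pool.Agent.H925R3.DC

/-- a finitely generated abelian group that is 2-divisible is finite of odd order -/
theorem fin_of_div {A : Type} [AddCommGroup A] (hfg : AddGroup.FG A) (h : ∀ a : A, ∃ b, a = 2 • b) :
    Finite A ∧ Odd (Nat.card A) := by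
  have hf : Module.Finite ℤ A := Module.Finite.iff_addGroup_fg.2 hfg
  obtain ⟨r, hr, hr0⟩ := Submodule.exists_sub_one_mem_and_smul_eq_zero_of_fg_of_le_smul
    (Ideal.span {(2 : ℤ)}) (⊤ : Submodule ℤ A) hf.fg_top (by
      intro a _
      obtain ⟨b, rfl⟩ := h a
      have : (2 : ℕ) • b = (2 : ℤ) • b := by rw [← natCast_zsmul]; rfl
      rw [this]
      exact Submodule.smul_mem_smul (Ideal.mem_span_singleton_self 2) trivial)
  rw [Ideal.mem_span_singleton] at hr
  obtain ⟨c, hc⟩ := hr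
  have hrn : r ≠ 0 := by
    rintro rfl
    omega
  have hfin : Finite A := by
    apply Module.finite_of_fg_torsion A
    intro a
    exact ⟨⟨r, mem_nonZeroDivisors_of_ne_zero hrn⟩, hr0 a trivial⟩
  refine ⟨hfin, ?_⟩
  rw [← Nat.not_even_iff_odd, even_iff_two_dvd]
  intro hd
  obtain ⟨a, ha⟩ := exists_prime_addOrderOf_dvd_card' 2 hd
  have h1 : (2 : ℤ) • a = 0 := by
    have := addOrderOf_nsmul_eq_zero a
    rw [ha] at this
    exact_mod_cast this
  have h2 : r • a = 0 := hr0 a trivial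
  have h3 : a = 0 := by
    have e : r = 2 * c + 1 := by omega
    rw [e, add_smul, one_smul, mul_comm, mul_smul, h1, smul_zero, zero_add] at h2
    exact h2
  rw [h3, addOrderOf_zero] at ha
  omega

theorem fin_odd {K : Type} [Field K] [NumberField K] [DecidableEq K]
    (hdiv : ∀ P : (⟨0, 0, 1, 0, 0⟩ : WeierstrassCurve K).toAffine.Point, ∃ Q, P = 2 • Q) :
    Finite (⟨0, 0, 1, 0, 0⟩ : WeierstrassCurve K).toAffine.Point ∧
      Odd (Nat.card (⟨0, 0, 1, 0, 0⟩ : WeierstrassCurve K).toAffine.Point) := by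
  have h2 : (2 : K) ≠ 0 := two_ne_zero
  have hfg : AddGroup.FG (crv K ((0 : ℤ) : K) ((16 : ℤ) : K)).Point :=
    Pool.Agent.H64R2.DDMWK.mwk K 0 16 (by norm_num)
  obtain ⟨Φ, -⟩ := iso16 (L := K) h2 (W := ⟨0, 0, 1, 0, 0⟩)
    (W' := ⟨0, 0, 0, ((0 : ℤ) : K), ((16 : ℤ) : K)⟩) ⟨rfl, rfl, rfl, rfl, rfl⟩
    ⟨rfl, rfl, rfl, by push_cast; rfl, by push_cast; rfl⟩
  refine fin_of_div ?_ hdiv
  exact Pool.Agent.H64R2.DDMWK.fg_of_inj Φ.toAddMonoidHom Φ.injective hfg

end Pool.Agent.Y784.E3
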